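import Pool.Agent.Mimw.Dominating

/-!
# Longest path transversals from dominated distance layers
-/

set_option autoImplicit false

namespace Pool.Mimw

open SimpleGraph

variable {V : Type*}

/-- any two vertices of `A` are joined by a walk inside `A` -/
def ConnSet (G : SimpleGraph V) (A : Finset V) : Prop :=
  ∀ x ∈ A, ∀ y ∈ A, ∃ w : G.Walk x y, ∀ z ∈ w.support, z ∈ A

/-- `v` is in `A` or adjacent to a vertex of `A` -/
def DomBy (G : SimpleGraph V) (A : Finset V) (v : V) : Prop :=
  v ∈ A ∨ ∃ d ∈ A, G.Adj v d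

/-- a vertex dominated by a connected set is joined to each vertex of it -/
theorem walk_of_domBy {G : SimpleGraph V} {A U : Finset V} (hA : ConnSet G A)
    (hAU : ∀ z ∈ A, z ∈ U) {a : V} (haU : a ∈ U) (ha : DomBy G A a) {x : V} (hx : x ∈ A) :
    ∃ w : G.Walk x a, ∀ z ∈ w.support, z ∈ U := by
  rcases ha with ha | ⟨d, hd, had⟩
  · obtain ⟨w, hw⟩ := hA x hx a ha
    exact ⟨w, fun z hz => hAU z (hw z hz)⟩
  · obtain ⟨w, hw⟩ := hA x hx d hd
    refine ⟨w.concat had.symm, fun z hz => ?_⟩
    rw [Walk.support_concat, List.mem_append, List.mem_singleton] at hz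
    rcases hz with hz | hz
    · exact hAU z (hw z hz)
    · rw [hz]
      exact haU

theorem connSet_merge [DecidableEq V] {G : SimpleGraph V} {A B : Finset V} (hA : ConnSet G A)
    (hB : ConnSet G B) {a b : V} (hab : G.Adj a b) (ha : DomBy G A a) (hb : DomBy G B b) :
    ConnSet G (A ∪ B ∪ {a, b}) := by
  have haU : a ∈ A ∪ B ∪ {a, b} := by simp
  have hbU : b ∈ A ∪ B ∪ {a, b} := by simp
  have hAU : ∀ z ∈ A, z ∈ A ∪ B ∪ {a, b} := fun z hz => by simp [hz]
  have hBU : ∀ z ∈ B, z ∈ A ∪ B ∪ {a, b} := fun z hz => by simp [hz]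
  have hall : ∀ x ∈ A ∪ B ∪ {a, b}, ∃ w : G.Walk x a, ∀ z ∈ w.support, z ∈ A ∪ B ∪ {a, b} := by
    intro x hx
    rw [Finset.mem_union, Finset.mem_union, Finset.mem_insert, Finset.mem_singleton] at hx
    rcases hx with (hx | hx) | (hx | hx)
    · exact walk_of_domBy hA hAU haU ha hx
    · obtain ⟨w, hw⟩ := walk_of_domBy hB hBU hbU hb hx
      refine ⟨w.concat hab.symm, fun z hz => ?_⟩
      rw [Walk.support_concat, List.mem_append, List.mem_singleton] at hz
      rcases hz with hz | hz
      · exact hw z hz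
      · rw [hz]
        exact haU
    · rw [hx]
      refine ⟨Walk.nil, fun z hz => ?_⟩
      rw [Walk.support_nil, List.mem_singleton] at hz
      rw [hz]
      exact haU
    · rw [hx]
      refine ⟨Walk.cons hab.symm Walk.nil, fun z hz => ?_⟩
      rw [Walk.support_cons, Walk.support_nil, List.mem_cons, List.mem_singleton] at hz
      rcases hz with hz | hz
      · rw [hz]
        exact hbU
      · rw [hz]
        exact haU
  intro x hx y hy
  obtain ⟨w, hw⟩ := hall x hx
  obtain ⟨w', hw'⟩ := hall y hy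
  refine ⟨w.append w'.reverse, fun z hz => ?_⟩
  rw [Walk.mem_support_append_iff, Walk.support_reverse, List.mem_reverse] at hz
  rcases hz with hz | hz
  · exact hw z hz
  · exact hw' z hz

/-- merging a family of connected sets along edges -/
theorem exists_merged (G : SimpleGraph V) (W : Set V) (N : ℕ) : ∀ (n : ℕ) (F : Finset (Finset V)),
    F.card = n → F.Nonempty → (∀ A ∈ F, ConnSet G A) → (∑ A ∈ F, A.card) + 2 * F.card ≤ N →
    (∀ v ∈ W, ∃ A ∈ F, DomBy G A v) →
    ∃ F' : Finset (Finset V), F'.Nonempty ∧ (∀ A ∈ F', ConnSet G A) ∧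
      (∑ A ∈ F', A.card) + 2 * F'.card ≤ N ∧ (∀ v ∈ W, ∃ A ∈ F', DomBy G A v) ∧
      ∀ a ∈ W, ∀ b ∈ W, G.Adj a b → ∀ A ∈ F', ∀ B ∈ F', DomBy G A a → DomBy G B b → A = B := by
  classical
  intro n
  induction n using Nat.strong_induction_on with
  | _ n ih =>
    intro F hn hne hconn hsum hdom
    by_cases h : ∀ a ∈ W, ∀ b ∈ W, G.Adj a b → ∀ A ∈ F, ∀ B ∈ F, DomBy G A a → DomBy G B b → A = B
    · exact ⟨F, hne, hconn, hsum, hdom, h⟩
    · push Not at h
      obtain ⟨a, haW, b, hbW, hab, A, hA, B, hB, hAa, hBb, hAB⟩ := h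
      have hBA : B ∈ F.erase A := Finset.mem_erase.2 ⟨fun h => hAB h.symm, hB⟩
      have hc1 : (F.erase A).card + 1 = F.card := Finset.card_erase_add_one hA
      have hc2 : ((F.erase A).erase B).card + 1 = (F.erase A).card := Finset.card_erase_add_one hBA
      have hs1 : A.card + ∑ C ∈ F.erase A, C.card = ∑ C ∈ F, C.card :=
        Finset.add_sum_erase F (fun C => C.card) hA
      have hs2 : B.card + ∑ C ∈ (F.erase A).erase B, C.card = ∑ C ∈ F.erase A, C.card :=
        Finset.add_sum_erase (F.erase A) (fun C => C.card) hBA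
      have hU : (A ∪ B ∪ {a, b}).card ≤ A.card + B.card + 2 := by
        have h1 := Finset.card_union_le (A ∪ B) {a, b}
        have h2 := Finset.card_union_le A B
        have h3 : ({a, b} : Finset V).card ≤ 2 := Finset.card_le_two
        omega
      have hcard : (insert (A ∪ B ∪ {a, b}) ((F.erase A).erase B)).card ≤ F.card - 1 := by
        have h1 := Finset.card_insert_le (A ∪ B ∪ {a, b}) ((F.erase A).erase B)
        omega
      have hsum' : (∑ C ∈ insert (A ∪ B ∪ {a, b}) ((F.erase A).erase B), C.card) ≤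
          (A ∪ B ∪ {a, b}).card + ∑ C ∈ (F.erase A).erase B, C.card := by
        by_cases hin : (A ∪ B ∪ {a, b}) ∈ (F.erase A).erase B
        · rw [Finset.insert_eq_of_mem hin]
          exact Nat.le_add_left _ _
        · rw [Finset.sum_insert hin]
      refine ih _ ?_ (insert (A ∪ B ∪ {a, b}) ((F.erase A).erase B)) rfl
        (Finset.insert_nonempty _ _) ?_ ?_ ?_
      · rw [← hn]
        omega
      · intro C hC
        rw [Finset.mem_insert] at hC
        rcases hC with hC | hC
        · rw [hC]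
          exact connSet_merge (hconn A hA) (hconn B hB) hab hAa hBb
        · exact hconn C (Finset.mem_of_mem_erase (Finset.mem_of_mem_erase hC))
      · omega
      · intro v hv
        obtain ⟨C, hC, hCv⟩ := hdom v hv
        by_cases h1 : C = A ∨ C = B
        · refine ⟨A ∪ B ∪ {a, b}, Finset.mem_insert_self _ _, ?_⟩
          have hCU : ∀ z ∈ C, z ∈ A ∪ B ∪ {a, b} := by
            intro z hz
            rcases h1 with h1 | h1
            · rw [h1] at hz
              simp [hz]
            · rw [h1] at hz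
              simp [hz]
          rcases hCv with h2 | ⟨d, hd, hvd⟩
          · exact Or.inl (hCU v h2)
          · exact Or.inr ⟨d, hCU d hd, hvd⟩
        · push Not at h1
          exact ⟨C, Finset.mem_insert_of_mem (Finset.mem_erase.2 ⟨h1.2, Finset.mem_erase.2 ⟨h1.1, hC⟩⟩),
            hCv⟩

/-- a small set that covers all edges inside `W` -/
theorem exists_cover_of_dom (G : SimpleGraph V) (W : Set V) (k c : ℕ) (F : Finset (Finset V))
    (hne : F.Nonempty) (hc : F.card ≤ c) (hk : (∑ A ∈ F, A.card) ≤ k)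
    (hconn : ∀ A ∈ F, ConnSet G A) (hdom : ∀ v ∈ W, ∃ A ∈ F, DomBy G A v) :
    ∃ S : Finset V, S.card + 2 ≤ k + 2 * c ∧
      ∀ a ∈ W, ∀ b ∈ W, G.Adj a b → a ∈ S ∨ b ∈ S ∨ Bypass G S a b := by
  classical
  obtain ⟨F', h1, h2, h3, h4, h5⟩ := exists_merged G W (k + 2 * c) F.card F rfl hne hconn
    (by omega) hdom
  refine ⟨F'.biUnion id, ?_, ?_⟩
  · have h6 : (F'.biUnion id).card ≤ ∑ A ∈ F', A.card := Finset.card_biUnion_le
    have h7 : 1 ≤ F'.card := h1.card_pos
    omega
  · intro a ha b hb hab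
    have hsub : ∀ A ∈ F', ∀ z ∈ A, z ∈ F'.biUnion id := fun A hA z hz =>
      Finset.mem_biUnion.2 ⟨A, hA, hz⟩
    by_cases haS : a ∈ F'.biUnion id
    · exact Or.inl haS
    by_cases hbS : b ∈ F'.biUnion id
    · exact Or.inr (Or.inl hbS)
    refine Or.inr (Or.inr ?_)
    obtain ⟨A, hA, hAa⟩ := h4 a ha
    obtain ⟨B, hB, hBb⟩ := h4 b hb
    have hAB := h5 a ha b hb hab A hA B hB hAa hBb
    rw [← hAB] at hBb
    rcases hAa with h6 | ⟨d, hd, had⟩
    · exact absurd (hsub A hA a h6) haS
    rcases hBb with h6 | ⟨e, he, hbe⟩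
    · exact absurd (hsub A hA b h6) hbS
    obtain ⟨w, hw⟩ := h2 A hA d hd e he
    exact bypass_of_walk w (fun z hz => hsub A hA z (hw z hz)) had hbe.symm haS hbS hab.ne

/-- there is a longest path (finite graphs) -/
theorem exists_isLongest [Fintype V] (G : SimpleGraph V) (r : V) :
    ∃ (u v : V) (p : G.Walk u v), IsLongest G p := by
  classical
  by_contra hcon
  push Not at hcon
  have hall : ∀ n : ℕ, ∃ (u v : V) (p : G.Walk u v), p.IsPath ∧ n ≤ p.length := by
    intro n
    induction n with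
    | zero => exact ⟨r, r, Walk.nil, Walk.IsPath.nil, Nat.zero_le _⟩
    | succ n ih =>
      obtain ⟨u, v, p, hp, hn⟩ := ih
      have h1 : ¬ ∀ (a b : V) (q : G.Walk a b), q.IsPath → q.length ≤ p.length := fun h =>
        hcon u v p ⟨hp, h⟩
      push Not at h1
      obtain ⟨a, b, q, hq, hlt⟩ := h1
      exact ⟨a, b, q, hq, by omega⟩
  obtain ⟨u, v, p, hp, hn⟩ := hall (Fintype.card V)
  have := hp.length_lt
  omega

/-- **Theorem A.** -/
theorem transversal_of_layers [Fintype V] {G : SimpleGraph V} (hG : G.Connected) (lev : V → ℕ)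
    (hlev : ∀ a b, G.Adj a b → lev b ≤ lev a + 1) (k c : ℕ) (hkc : 3 ≤ k + 2 * c)
    (h : ∀ i, ∃ F : Finset (Finset V), F.Nonempty ∧ F.card ≤ c ∧ (∑ A ∈ F, A.card) ≤ k ∧
      (∀ A ∈ F, ConnSet G A) ∧ ∀ v, i ≤ lev v + 1 → lev v ≤ i + 1 → ∃ A ∈ F, DomBy G A v) :
    ∃ S : Finset V, S.card + 2 ≤ k + 2 * c ∧
      ∀ (u v : V) (p : G.Walk u v), IsLongest G p → ∃ x ∈ S, x ∈ p.support := by
  classical
  obtain ⟨r⟩ := hG.nonempty
  rcases subsingleton_or_nontrivial V with hV | hV
  · refine ⟨{r}, by rw [Finset.card_singleton]; omega, fun u v p _ =>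
      ⟨r, Finset.mem_singleton_self r, ?_⟩⟩
    rw [Subsingleton.elim r u]
    exact p.start_mem_support
  have h2 : ∀ i, ∃ S : Finset V, S.card + 2 ≤ k + 2 * c ∧
      ∀ a ∈ {v | i ≤ lev v + 1 ∧ lev v ≤ i + 1}, ∀ b ∈ {v | i ≤ lev v + 1 ∧ lev v ≤ i + 1},
        G.Adj a b → a ∈ S ∨ b ∈ S ∨ Bypass G S a b := by
    intro i
    obtain ⟨F, h3, h4, h5, h6, h7⟩ := h i
    exact exists_cover_of_dom G _ k c F h3 h4 h5 h6 (fun v hv => h7 v hv.1 hv.2)
  choose S hS hcov using h2
  obtain ⟨i, hi⟩ := transversal_of_pos hG hV lev S (fun a b hab i hai hib => by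
    have h3 := hlev a b hab
    exact hcov i a ⟨by omega, by omega⟩ b ⟨by omega, by omega⟩ hab) (exists_isLongest G r)
  exact ⟨S i, hS i, hi⟩

/-- the part of a shortest path near a level -/
theorem exists_zone [DecidableEq V] {G : SimpleGraph V} {r t : V} (P : G.Walk r t)
    (i : ℕ) : ∃ A : Finset V, A.card ≤ 5 ∧ ConnSet G A ∧
      ∀ j, j ≤ P.length → i ≤ j + 2 → j ≤ i + 2 → P.getVert j ∈ A := by
  refine ⟨((Finset.range 5).filter (fun n => 2 ≤ i + n ∧ i + n - 2 ≤ P.length)).image
    (fun n => P.getVert (i + n - 2)), ?_, ?_, ?_⟩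
  · refine Finset.card_image_le.trans ((Finset.card_filter_le _ _).trans ?_)
    simp
  · -- connected
    have hup : ∀ m j, 2 ≤ i + j → j + m < 5 → i + (j + m) - 2 ≤ P.length →
        ∃ w : G.Walk (P.getVert (i + j - 2)) (P.getVert (i + (j + m) - 2)), ∀ z ∈ w.support,
          z ∈ ((Finset.range 5).filter (fun n => 2 ≤ i + n ∧ i + n - 2 ≤ P.length)).image
            (fun n => P.getVert (i + n - 2)) := by
      intro m j hj hjm hle
      obtain ⟨w, hw⟩ := exists_piece P (i + j - 2) m (by omega)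
      have he : i + j - 2 + m = i + (j + m) - 2 := by omega
      refine ⟨w.copy rfl (by rw [he]), fun z hz => ?_⟩
      rw [Walk.support_copy] at hz
      obtain ⟨l, hl1, hl2, hl3⟩ := hw z hz
      refine Finset.mem_image.2 ⟨l + 2 - i, Finset.mem_filter.2 ⟨Finset.mem_range.2 (by omega),
        by omega, by omega⟩, ?_⟩
      have h5 : i + (l + 2 - i) - 2 = l := by omega
      rw [h5, hl3]
    intro x hx y hy
    obtain ⟨n, hn, rfl⟩ := Finset.mem_image.1 hx
    obtain ⟨m, hm, rfl⟩ := Finset.mem_image.1 hy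
    rw [Finset.mem_filter, Finset.mem_range] at hn hm
    rcases le_total n m with hnm | hnm
    · obtain ⟨w, hw⟩ := hup (m - n) n hn.2.1 (by omega)
        (by have h6 : n + (m - n) = m := by omega
            rw [h6]; exact hm.2.2)
      have h6 : n + (m - n) = m := by omega
      refine ⟨w.copy rfl (by rw [h6]), fun z hz => ?_⟩
      rw [Walk.support_copy] at hz
      exact hw z hz
    · obtain ⟨w, hw⟩ := hup (n - m) m hm.2.1 (by omega)
        (by have h6 : m + (n - m) = n := by omega
            rw [h6]; exact hn.2.2)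
      have h6 : m + (n - m) = n := by omega
      refine ⟨(w.copy rfl (by rw [h6])).reverse, fun z hz => ?_⟩
      rw [Walk.support_reverse, List.mem_reverse, Walk.support_copy] at hz
      exact hw z hz
  · intro j hj h1 h2
    refine Finset.mem_image.2 ⟨j + 2 - i, Finset.mem_filter.2 ⟨Finset.mem_range.2 (by omega),
      by omega, by omega⟩, ?_⟩
    have h5 : i + (j + 2 - i) - 2 = j := by omega
    rw [h5]

/-- **Theorem B.** Every vertex is on or adjacent to one of `m` shortest paths from `r`. -/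
theorem transversal_of_geodesics [Fintype V] {G : SimpleGraph V} (hG : G.Connected) (r : V) (m : ℕ)
    (hm : 1 ≤ m) (t : Fin m → V) (P : ∀ j, G.Walk r (t j)) (hP : ∀ j, (P j).length = G.dist r (t j))
    (hd : ∀ v, ∃ j, ∃ z ∈ (P j).support, v = z ∨ G.Adj v z) :
    ∃ S : Finset V, S.card + 2 ≤ 7 * m ∧
      ∀ (u v : V) (p : G.Walk u v), IsLongest G p → ∃ x ∈ S, x ∈ p.support := by
  classical
  choose A hA1 hA2 hA3 using fun (i : ℕ) (j : Fin m) => exists_zone (P j) i
  obtain ⟨S, hS, hS'⟩ := transversal_of_layers hG (fun v => G.dist r v) (fun a b hab => by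
      have h1 : G.dist r b ≤ G.dist r a + G.dist a b := hG.dist_triangle
      have h2 : G.dist a b = 1 := dist_eq_one_iff_adj.2 hab
      omega) (5 * m) m (by omega) (fun i => by
    refine ⟨Finset.univ.image (A i), ?_, ?_, ?_, ?_, ?_⟩
    · exact ⟨A i ⟨0, hm⟩, Finset.mem_image_of_mem _ (Finset.mem_univ _)⟩
    · exact Finset.card_image_le.trans (by simp)
    · refine (Finset.sum_le_card_nsmul _ _ 5 ?_).trans ?_
      · intro B hB
        obtain ⟨j, _, rfl⟩ := Finset.mem_image.1 hB
        exact hA1 i j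
      · have h1 : (Finset.univ.image (A i)).card ≤ m := Finset.card_image_le.trans (by simp)
        rw [smul_eq_mul]
        omega
    · intro B hB
      obtain ⟨j, _, rfl⟩ := Finset.mem_image.1 hB
      exact hA2 i j
    · intro v h1 h2
      obtain ⟨j, z, hz, hvz⟩ := hd v
      obtain ⟨n, hn, hn2⟩ := Walk.mem_support_iff_exists_getVert.1 hz
      have h3 := dist_getVert_of_shortest (P j) (hP j) hn2
      rw [hn] at h3
      have h4 : G.dist r v ≤ G.dist r z + 1 ∧ G.dist r z ≤ G.dist r v + 1 := by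
        rcases hvz with h | h
        · rw [h]
          omega
        · have h5 : G.dist v z = 1 := dist_eq_one_iff_adj.2 h
          have h6 : G.dist r v ≤ G.dist r z + G.dist z v := hG.dist_triangle
          have h7 : G.dist r z ≤ G.dist r v + G.dist v z := hG.dist_triangle
          have h9 : G.dist z v = 1 := by rw [dist_comm]; exact h5
          omega
      have h8 : z ∈ A i j := by
        rw [← hn]
        exact hA3 i j n hn2 (by omega) (by omega)
      refine ⟨A i j, Finset.mem_image_of_mem _ (Finset.mem_univ _), ?_⟩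
      rcases hvz with h | h
      · exact Or.inl (by rw [h]; exact h8)
      · exact Or.inr ⟨z, h8, h⟩)
  exact ⟨S, by omega, hS'⟩

end Pool.Mimw
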