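import Pool.Agent.Mimw.Longest

/-!
# Tools for bypasses
-/

set_option autoImplicit false

namespace Pool.Mimw

open SimpleGraph

variable {V : Type*}

/-- a walk inside `S` between neighbours of `a` and `b` gives a bypass -/
theorem bypass_of_walk {G : SimpleGraph V} {S : Finset V} {a b s t : V} (w : G.Walk s t)
    (hw : ∀ z ∈ w.support, z ∈ S) (has : G.Adj a s) (htb : G.Adj t b) (ha : a ∉ S) (hb : b ∉ S)
    (hab : a ≠ b) : Bypass G S a b := by
  classical
  have hw' : ∀ z ∈ w.toPath.1.support, z ∈ S := fun z hz => hw z (w.support_toPath_subset_support hz)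
  have h1 : (w.toPath.1.concat htb).IsPath :=
    w.toPath.2.concat (fun h => hb (hw' b h)) htb
  refine ⟨Walk.cons has (w.toPath.1.concat htb), ?_, ?_, ?_⟩
  · rw [Walk.cons_isPath_iff]
    refine ⟨h1, fun h => ?_⟩
    rw [Walk.support_concat, List.mem_append, List.mem_singleton] at h
    rcases h with h | h
    · exact ha (hw' a h)
    · exact hab h
  · rw [Walk.length_cons, Walk.length_concat]
    omega
  · intro z hz
    rw [Walk.support_cons, Walk.support_concat, List.mem_cons,
      List.mem_append, List.mem_singleton] at hz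
    rcases hz with h | h | h
    · exact Or.inl h
    · exact Or.inr (Or.inr (hw' z h))
    · exact Or.inr (Or.inl h)

/-- an edge of a longest path which avoids `S` has no bypass through `S`, and its ends are not in `S` -/
theorem meets_of_edge {G : SimpleGraph V} {S : Finset V} {u v : V} {p : G.Walk u v}
    (hp : IsLongest G p) {a b : V} (h : G.Adj a b) (q : G.Walk u a) (r : G.Walk b v)
    (hqr : p = q.append (Walk.cons h r)) (hab : a ∈ S ∨ b ∈ S ∨ Bypass G S a b) :
    ∃ x ∈ S, x ∈ p.support := by
  by_contra hcon
  push Not at hcon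
  have ha : a ∈ p.support := by
    rw [hqr, Walk.mem_support_append_iff]
    exact Or.inl q.end_mem_support
  have hb : b ∈ p.support := by
    rw [hqr, Walk.mem_support_append_iff, Walk.support_cons]
    exact Or.inr (List.mem_cons_of_mem _ r.start_mem_support)
  rcases hab with h1 | h1 | h1
  · exact hcon a h1 ha
  · exact hcon b h1 hb
  · exact no_bypass h q r (by rw [← hqr]; exact hp) (by rw [← hqr]; exact hcon) h1

/-- a walk with at least one edge has an edge at each of its vertices -/
theorem exists_edge_at {G : SimpleGraph V} {u v : V} (p : G.Walk u v) (hp : 1 ≤ p.length) {x : V}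
    (hx : x ∈ p.support) : ∃ (a b : V) (h : G.Adj a b) (q : G.Walk u a) (r : G.Walk b v),
      p = q.append (Walk.cons h r) ∧ (a = x ∨ b = x) := by
  have hy : ∃ y ∈ p.support, y ∉ ({x} : Set V) := by
    cases p with
    | nil => simp at hp
    | @cons _ w _ h p' =>
      by_cases hu : u = x
      · refine ⟨w, ?_, ?_⟩
        · rw [Walk.support_cons]
          exact List.mem_cons_of_mem _ p'.start_mem_support
        · rw [Set.mem_singleton_iff, ← hu]
          exact h.ne'
      · exact ⟨u, Walk.start_mem_support _, hu⟩
  obtain ⟨a, b, h, q, r, hqr, hab⟩ := exists_split {x} p ⟨x, hx, rfl⟩ hy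
  refine ⟨a, b, h, q, r, hqr, ?_⟩
  rcases hab with h1 | h1
  · exact Or.inl h1.1
  · exact Or.inr h1.2

/-- the ends of the edge in the middle belong to the walk -/
theorem mem_of_split {G : SimpleGraph V} {u v : V} {p : G.Walk u v} {a b : V} {h : G.Adj a b}
    {q : G.Walk u a} {r : G.Walk b v} (hqr : p = q.append (Walk.cons h r)) :
    a ∈ p.support ∧ b ∈ p.support := by
  constructor
  · rw [hqr, Walk.mem_support_append_iff]
    exact Or.inl q.end_mem_support
  · rw [hqr, Walk.mem_support_append_iff, Walk.support_cons]
    exact Or.inr (List.mem_cons_of_mem _ r.start_mem_support)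

/-- in a connected graph with two vertices a longest path has an edge -/
theorem one_le_length {G : SimpleGraph V} (hG : G.Connected) (hV : Nontrivial V) {u v : V}
    {p : G.Walk u v} (hp : IsLongest G p) : 1 ≤ p.length := by
  obtain ⟨w, hw⟩ := hG.preconnected.exists_adj_of_nontrivial u
  have h1 : (Walk.cons hw Walk.nil).IsPath := by
    rw [Walk.cons_isPath_iff]
    refine ⟨Walk.IsPath.nil, ?_⟩
    rw [Walk.support_nil, List.mem_singleton]
    exact hw.ne
  exact hp.2 _ _ _ h1

end Pool.Mimw
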