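import Pool.Agent.Mimw.Layers

/-!
# Longest path transversals from maps of the vertices to a tree
-/

set_option autoImplicit false

namespace Pool.Mimw

open SimpleGraph

variable {V ι : Type*}

/-- `x` is on the path from `y` to `z` in the tree `T`: every walk from `y` to `z` passes `x` -/
def Passes (T : SimpleGraph ι) (x y z : ι) : Prop := ∀ w : T.Walk y z, x ∈ w.support

/-- `y` and `z` are joined by a walk which does not pass `x` -/
def Around (T : SimpleGraph ι) (x y z : ι) : Prop := ∃ w : T.Walk y z, x ∉ w.support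

theorem not_passes {T : SimpleGraph ι} {x y z : ι} : ¬ Passes T x y z ↔ Around T x y z := by
  unfold Passes Around
  push Not
  rfl

theorem Around.symm {T : SimpleGraph ι} {x y z : ι} (h : Around T x y z) : Around T x z y := by
  obtain ⟨w, hw⟩ := h
  exact ⟨w.reverse, by rwa [Walk.support_reverse, List.mem_reverse]⟩

theorem Around.trans {T : SimpleGraph ι} {x y z t : ι} (h : Around T x y z) (h' : Around T x z t) :
    Around T x y t := by
  obtain ⟨w, hw⟩ := h
  obtain ⟨w', hw'⟩ := h'
  refine ⟨w.append w', fun h1 => ?_⟩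
  rw [Walk.mem_support_append_iff] at h1
  rcases h1 with h1 | h1
  · exact hw h1
  · exact hw' h1

theorem Passes.symm {T : SimpleGraph ι} {x y z : ι} (h : Passes T x y z) : Passes T x z y := by
  by_contra h1
  rw [not_passes] at h1
  obtain ⟨w, hw⟩ := h1.symm
  exact hw (h w)

/-- a dart splits a walk -/
theorem exists_split_of_mem_darts {G : SimpleGraph V} {u v : V} (p : G.Walk u v) (d : G.Dart)
    (hd : d ∈ p.darts) : ∃ (q : G.Walk u d.fst) (r : G.Walk d.snd v),
      p = q.append (Walk.cons d.adj r) := by
  induction p with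
  | nil => simp at hd
  | @cons u w v h p ih =>
    rw [Walk.darts_cons, List.mem_cons] at hd
    rcases hd with hd | hd
    · subst hd
      exact ⟨Walk.nil, p, rfl⟩
    · obtain ⟨q, r, hqr⟩ := ih hd
      exact ⟨Walk.cons h q, r, by rw [hqr, Walk.cons_append]⟩

/-- the images of the vertices of a walk are on one side of `x` -/
theorem around_of_darts {G : SimpleGraph V} {T : SimpleGraph ι} {x : ι} (f : V → ι) {u v : V}
    (p : G.Walk u v) (hd : ∀ d ∈ p.darts, Around T x (f d.fst) (f d.snd))
    (hu : Around T x (f u) (f u)) : ∀ z ∈ p.support, Around T x (f u) (f z) := by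
  induction p with
  | nil =>
    intro z hz
    rw [Walk.support_nil, List.mem_singleton] at hz
    rw [hz]
    exact hu
  | @cons u w v h p ih =>
    have h1 : Around T x (f u) (f w) := hd ⟨(u, w), h⟩ (by
      rw [Walk.darts_cons]
      exact List.mem_cons_self)
    intro z hz
    rw [Walk.support_cons, List.mem_cons] at hz
    rcases hz with hz | hz
    · rw [hz]
      exact hu
    · exact h1.trans (ih (fun d hd' => hd d (by
        rw [Walk.darts_cons]
        exact List.mem_cons_of_mem _ hd')) (h1.symm.trans h1) z hz)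

theorem around_start {G : SimpleGraph V} {T : SimpleGraph ι} {x : ι} (f : V → ι) {u v : V}
    (p : G.Walk u v) (hlen : 1 ≤ p.length) (hd : ∀ d ∈ p.darts, Around T x (f d.fst) (f d.snd)) :
    Around T x (f u) (f u) := by
  cases p with
  | nil => simp at hlen
  | @cons _ w _ h q =>
    have h1 : Around T x (f u) (f w) := hd ⟨(u, w), h⟩ (by
      rw [Walk.darts_cons]
      exact List.mem_cons_self)
    exact h1.trans h1.symm

theorem exists_next {T : SimpleGraph ι} {x t : ι} (w : T.Walk x t) (hw : w.IsPath) (hxt : x ≠ t) :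
    ∃ y, T.Adj x y ∧ Around T x y t := by
  cases w with
  | nil => exact absurd rfl hxt
  | @cons _ y _ h q =>
    rw [Walk.cons_isPath_iff] at hw
    exact ⟨y, h, q, hw.2⟩

/-- **Theorem.** For every map `f` from the vertices of a connected graph to the nodes of a tree there
is a node `x` such that every set which covers the edges passing over `x` meets all longest paths. -/
theorem exists_node [Fintype V] [Finite ι] {G : SimpleGraph V} (hG : G.Connected)
    (hV : Nontrivial V) {T : SimpleGraph ι} (hT : T.IsTree) (f : V → ι) :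
    ∃ x : ι, ∀ S : Finset V,
      (∀ a b, G.Adj a b → Passes T x (f a) (f b) → a ∈ S ∨ b ∈ S ∨ Bypass G S a b) →
      ∀ (u v : V) (p : G.Walk u v), IsLongest G p → ∃ z ∈ S, z ∈ p.support := by
  classical
  by_contra hcon
  push Not at hcon
  choose S hS u v p hp hmiss using hcon
  -- the longest path `p x` stays on one side of `x`
  have hside : ∀ x, ∀ z ∈ (p x).support, Around T x (f (u x)) (f z) := by
    intro x
    have hd : ∀ d ∈ (p x).darts, Around T x (f d.fst) (f d.snd) := by
      intro d hd
      rw [← not_passes]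
      intro hpass
      obtain ⟨q, r, hqr⟩ := exists_split_of_mem_darts (p x) d hd
      obtain ⟨z, hz, hz'⟩ := meets_of_edge (hp x) d.adj q r hqr (hS x _ _ d.adj hpass)
      exact hmiss x z hz hz'
    exact around_of_darts f (p x) hd (around_start f (p x) (one_le_length hG hV (hp x)) hd)
  let C : ι → Set ι := fun x => {y | Around T x (f (u x)) y}
  have hne : (Set.univ : Set ι).Nonempty := ⟨f (hG.nonempty).some, Set.mem_univ _⟩
  obtain ⟨x, -, hmin⟩ := Set.exists_min_image (Set.univ : Set ι) (fun x => (C x).ncard)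
    Set.finite_univ hne
  -- the neighbour of `x` in the direction of `p x`
  have hxne : x ≠ f (u x) := by
    intro h
    obtain ⟨w, hw⟩ := hside x _ (p x).start_mem_support
    exact hw ((congrArg (fun t => t ∈ w.support) h).mpr w.start_mem_support)
  obtain ⟨w0⟩ := hT.1.preconnected x (f (u x))
  obtain ⟨y, hxy, hy⟩ := exists_next w0.toPath.1 w0.toPath.2 hxne
  by_cases hxC : x ∈ C y
  · -- the two paths do not meet
    obtain ⟨z, hz1, hz2⟩ := longest_meet hG (hp x) (hp y)
    obtain ⟨w1, hw1⟩ : Around T x y (f z) := hy.trans (hside x z hz1)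
    obtain ⟨w2, hw2⟩ : Around T y x (f z) := (Around.symm hxC).trans (hside y z hz2)
    have hbr := (isAcyclic_iff_forall_adj_isBridge.1 hT.2) hxy
    rw [isBridge_iff_forall_walk_mem_edges] at hbr
    have h1 := hbr (w2.append w1.reverse)
    rw [Walk.edges_append, List.mem_append, Walk.edges_reverse, List.mem_reverse] at h1
    rcases h1 with h1 | h1
    · exact hw2 (w2.snd_mem_support_of_mem_edges h1)
    · exact hw1 (w1.fst_mem_support_of_mem_edges h1)
  · -- `C y` is smaller
    have hsub : C y ⊂ C x := by
      refine ⟨fun z hz => ?_, fun h => ?_⟩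
      · obtain ⟨w3⟩ := hT.1.preconnected z y
        by_cases hx3 : x ∈ w3.toPath.1.support
        · exfalso
          apply hxC
          have h1 : Around T y z x := ⟨w3.toPath.1.takeUntil x hx3,
            Walk.endpoint_notMem_support_takeUntil w3.toPath.2 hx3 hxy.ne'⟩
          exact Around.trans hz h1
        · exact hy.symm.trans (Around.symm ⟨w3.toPath.1, hx3⟩)
      · have h1 : y ∈ C y := h (Around.symm hy)
        obtain ⟨w, hw⟩ := h1
        exact hw w.end_mem_support
    exact absurd (hmin y (Set.mem_univ _)) (not_le.2 (Set.ncard_lt_ncard hsub (Set.toFinite _)))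

/-- **Theorem.** If for every node `x` the ends of the edges passing over `x` are dominated by `c`
connected sets with `k` vertices together, then `k + 2 (c - 1)` vertices meet all longest paths. -/
theorem transversal_of_tree [Fintype V] [Finite ι] {G : SimpleGraph V} (hG : G.Connected)
    {T : SimpleGraph ι} (hT : T.IsTree) (f : V → ι) (k c : ℕ) (hk : 1 ≤ k) (hc : 1 ≤ c)
    (h : ∀ x, ∃ F : Finset (Finset V), F.card ≤ c ∧ (∑ A ∈ F, A.card) ≤ k ∧
      (∀ A ∈ F, ConnSet G A) ∧
      ∀ a b, G.Adj a b → Passes T x (f a) (f b) → ∃ A ∈ F, DomBy G A a) :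
    ∃ S : Finset V, S.card ≤ k + 2 * (c - 1) ∧
      ∀ (u v : V) (p : G.Walk u v), IsLongest G p → ∃ x ∈ S, x ∈ p.support := by
  classical
  obtain ⟨r⟩ := hG.nonempty
  rcases subsingleton_or_nontrivial V with hV | hV
  · refine ⟨{r}, by rw [Finset.card_singleton]; omega, fun u v p _ =>
      ⟨r, Finset.mem_singleton_self r, ?_⟩⟩
    rw [Subsingleton.elim r u]
    exact p.start_mem_support
  obtain ⟨x, hx⟩ := exists_node hG hV hT f
  obtain ⟨F, h1, h2, h3, h4⟩ := h x
  obtain ⟨F', hne, h1', h2', h3', h4'⟩ : ∃ F' : Finset (Finset V), F'.Nonempty ∧ F'.card ≤ c ∧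
      (∑ A ∈ F', A.card) ≤ k ∧ (∀ A ∈ F', ConnSet G A) ∧
      ∀ a b, G.Adj a b → Passes T x (f a) (f b) → ∃ A ∈ F', DomBy G A a := by
    rcases F.eq_empty_or_nonempty with hF | hF
    · refine ⟨{∅}, Finset.singleton_nonempty _, by rw [Finset.card_singleton]; exact hc, by simp,
        ?_, ?_⟩
      · intro A hA
        rw [Finset.mem_singleton] at hA
        rw [hA]
        intro x hx
        exact absurd hx (Finset.notMem_empty _)
      · intro a b hab hpass
        obtain ⟨A, hA, -⟩ := h4 a b hab hpass
        rw [hF] at hA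
        exact absurd hA (Finset.notMem_empty _)
    · exact ⟨F, hF, h1, h2, h3, h4⟩
  obtain ⟨S, hS, hS'⟩ := exists_cover_of_dom G {a | ∃ b, G.Adj a b ∧ Passes T x (f a) (f b)} k c F'
    hne h1' h2' h3' (fun a ⟨b, hab, hpass⟩ => h4' a b hab hpass)
  refine ⟨S, by omega, hx S fun a b hab hpass => ?_⟩
  exact hS' a ⟨b, hab, hpass⟩ b ⟨a, hab.symm, hpass.symm⟩ hab

end Pool.Mimw
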