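import Pool.Agent.Mimw.Bypass

/-!
# Connected graphs with a dominating shortest path
-/

set_option autoImplicit false

namespace Pool.Mimw

open SimpleGraph

variable {V : Type*}

/-- **Linear form.** A position for every vertex, and for every `i` a small set which covers all
edges from positions `≤ i` to positions `≥ i`. -/
theorem transversal_of_pos {G : SimpleGraph V} (hG : G.Connected) (hV : Nontrivial V)
    (pos : V → ℕ) (S : ℕ → Finset V)
    (hc : ∀ a b, G.Adj a b → ∀ i, pos a ≤ i → i ≤ pos b → a ∈ S i ∨ b ∈ S i ∨ Bypass G (S i) a b)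
    (hex : ∃ (u v : V) (p : G.Walk u v), IsLongest G p) :
    ∃ i, ∀ (u v : V) (p : G.Walk u v), IsLongest G p → ∃ x ∈ S i, x ∈ p.support := by
  classical
  have hN : ∃ n, ∃ (u v : V) (p : G.Walk u v), IsLongest G p ∧ ∀ z ∈ p.support, pos z ≤ n := by
    obtain ⟨u, v, p, hp⟩ := hex
    refine ⟨p.support.toFinset.sup pos, u, v, p, hp, fun z hz => ?_⟩
    exact Finset.le_sup (f := pos) (List.mem_toFinset.2 hz)
  obtain ⟨u0, v0, p0, hp0, hle⟩ := Nat.find_spec hN
  have hmin : ∀ (u v : V) (p : G.Walk u v), IsLongest G p → ∃ z ∈ p.support, Nat.find hN ≤ pos z := by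
    intro u v p hp
    by_contra hcon
    push Not at hcon
    have h0 : 0 < Nat.find hN := lt_of_le_of_lt (Nat.zero_le _) (hcon u p.start_mem_support)
    exact Nat.find_min hN (m := Nat.find hN - 1) (by omega)
      ⟨u, v, p, hp, fun z hz => by have := hcon z hz; omega⟩
  refine ⟨Nat.find hN, fun u v p hp => ?_⟩
  obtain ⟨x, hx, hxi⟩ := hmin u v p hp
  by_cases hgt : ∃ y ∈ p.support, ¬ pos y ≤ Nat.find hN
  · obtain ⟨z, hz0, hz⟩ := longest_meet hG hp0 hp
    obtain ⟨a, b, h, q, r, hqr, hab⟩ := exists_split {z | pos z ≤ Nat.find hN} p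
      ⟨z, hz, hle z hz0⟩ hgt
    refine meets_of_edge hp h q r hqr ?_
    rcases hab with ⟨h1, h2⟩ | ⟨h1, h2⟩
    · exact hc a b h _ h1 (not_le.1 h2).le
    · rcases hc b a h.symm _ h2 (not_le.1 h1).le with h3 | h3 | h3
      · exact Or.inr (Or.inl h3)
      · exact Or.inl h3
      · exact Or.inr (Or.inr h3.symm)
  · push Not at hgt
    obtain ⟨a, b, h, q, r, hqr, hab⟩ := exists_edge_at p (one_le_length hG hV hp) hx
    have hm := mem_of_split hqr
    refine meets_of_edge hp h q r hqr ?_
    rcases hab with h1 | h1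
    · rcases hc b a h.symm _ (hgt b hm.2) (by rw [h1]; exact hxi) with h3 | h3 | h3
      · exact Or.inr (Or.inl h3)
      · exact Or.inl h3
      · exact Or.inr (Or.inr h3.symm)
    · exact hc a b h _ (hgt a hm.1) (by rw [h1]; exact hxi)

/-- a piece of a walk between two of its vertices -/
theorem exists_piece {G : SimpleGraph V} {s t : V} (P : G.Walk s t) (j n : ℕ)
    (h : j + n ≤ P.length) : ∃ w : G.Walk (P.getVert j) (P.getVert (j + n)),
      ∀ z ∈ w.support, ∃ l, j ≤ l ∧ l ≤ j + n ∧ z = P.getVert l := by
  induction n with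
  | zero =>
    refine ⟨Walk.nil, fun z hz => ?_⟩
    rw [Walk.support_nil, List.mem_singleton] at hz
    exact ⟨j, le_refl _, le_refl _, hz⟩
  | succ n ih =>
    obtain ⟨w, hw⟩ := ih (by omega)
    have hadj : G.Adj (P.getVert (j + n)) (P.getVert (j + n + 1)) :=
      P.adj_getVert_succ (by omega)
    refine ⟨w.concat hadj, fun z hz => ?_⟩
    rw [Walk.support_concat, List.mem_append, List.mem_singleton] at hz
    rcases hz with hz | hz
    · obtain ⟨l, h1, h2, h3⟩ := hw z hz
      exact ⟨l, h1, by omega, h3⟩
    · exact ⟨j + n + 1, by omega, by omega, hz⟩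

/-- on a shortest path the distance from the start is the index -/
theorem dist_getVert_of_shortest {G : SimpleGraph V} {s t : V} (P : G.Walk s t)
    (hP : P.length = G.dist s t) {i : ℕ} (hi : i ≤ P.length) : G.dist s (P.getVert i) = i := by
  have h1 : G.dist s (P.getVert i) ≤ (P.take i).length := dist_le _
  have h2 : (P.take i).length = i := by
    rw [Walk.take_length]
    exact min_eq_left hi
  have h3 : G.dist (P.getVert i) t ≤ (P.drop i).length := dist_le _
  have h4 : (P.drop i).length = P.length - i := Walk.drop_length _ _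
  have h5 : G.dist s t ≤ G.dist s (P.getVert i) + G.dist (P.getVert i) t := by
    by_cases hr : G.Reachable s t
    · exact (SimpleGraph.Reachable.dist_triangle_left ⟨P.take i⟩ _)
    · exact absurd ⟨P⟩ hr
  omega

/-- A walk dominates if every vertex is on it or adjacent to a vertex of it. -/
def Dominates (G : SimpleGraph V) {s t : V} (P : G.Walk s t) : Prop :=
  ∀ v, ∃ z ∈ P.support, v = z ∨ G.Adj v z

/-- **Theorem.** A connected graph with a dominating shortest path has a longest path transversal
with at most `7` vertices. -/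
theorem transversal_of_dominating [Fintype V] {G : SimpleGraph V} (hG : G.Connected) {s t : V}
    (P : G.Walk s t) (hP : P.length = G.dist s t) (hd : Dominates G P) :
    ∃ S : Finset V, S.card ≤ 7 ∧
      ∀ (u v : V) (p : G.Walk u v), IsLongest G p → ∃ x ∈ S, x ∈ p.support := by
  classical
  rcases subsingleton_or_nontrivial V with hV | hV
  · refine ⟨{s}, by simp, fun u v p _ => ⟨s, Finset.mem_singleton_self s, ?_⟩⟩
    rw [Subsingleton.elim s u]
    exact p.start_mem_support
  have hpos : ∀ v, ∃ j, j ≤ P.length ∧ (v = P.getVert j ∨ G.Adj v (P.getVert j)) := by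
    intro v
    obtain ⟨z, hz, hvz⟩ := hd v
    obtain ⟨j, hj, hj2⟩ := Walk.mem_support_iff_exists_getVert.1 hz
    exact ⟨j, hj2, by rw [hj]; exact hvz⟩
  choose pos hpos1 hpos2 using hpos
  have hdp : ∀ v, G.dist v (P.getVert (pos v)) ≤ 1 := by
    intro v
    rcases hpos2 v with h | h
    · rw [← h, dist_self]
      exact Nat.zero_le _
    · exact (dist_eq_one_iff_adj.2 h).le
  -- the positions of adjacent vertices differ by at most 3
  have hedge : ∀ a b, G.Adj a b → pos b ≤ pos a + 3 := by
    intro a b hab
    have h1 := dist_getVert_of_shortest P hP (hpos1 a)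
    have h2 := dist_getVert_of_shortest P hP (hpos1 b)
    have h3 : G.dist s (P.getVert (pos b)) ≤ G.dist s b + G.dist b (P.getVert (pos b)) :=
      hG.dist_triangle
    have h4 : G.dist s b ≤ G.dist s a + G.dist a b := hG.dist_triangle
    have h5 : G.dist s a ≤ G.dist s (P.getVert (pos a)) + G.dist (P.getVert (pos a)) a :=
      hG.dist_triangle
    have h6 := hdp a
    have h7 := hdp b
    have h8 : G.dist a b = 1 := dist_eq_one_iff_adj.2 hab
    rw [dist_comm] at h6
    omega
  let S : ℕ → Finset V := fun i => (Finset.range 7).image (fun n => P.getVert (i + n - 3))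
  have hS : ∀ i l, l ≤ i + 3 → i ≤ l + 3 → P.getVert l ∈ S i := by
    intro i l h1 h2
    refine Finset.mem_image.2 ⟨l + 3 - i, Finset.mem_range.2 (by omega), ?_⟩
    have h3 : i + (l + 3 - i) - 3 = l := by omega
    rw [h3]
  have hex : ∃ (u v : V) (p : G.Walk u v), IsLongest G p := by
    by_contra hcon
    push Not at hcon
    have hall : ∀ n : ℕ, ∃ (u v : V) (p : G.Walk u v), p.IsPath ∧ n ≤ p.length := by
      intro n
      induction n with
      | zero => exact ⟨s, s, Walk.nil, Walk.IsPath.nil, Nat.zero_le _⟩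
      | succ n ih =>
        obtain ⟨u, v, p, hp, hn⟩ := ih
        have h1 : ¬ ∀ (a b : V) (q : G.Walk a b), q.IsPath → q.length ≤ p.length := fun h =>
          hcon u v p ⟨hp, h⟩
        push Not at h1
        obtain ⟨a, b, q, hq, hlt⟩ := h1
        exact ⟨a, b, q, hq, by omega⟩
    obtain ⟨u, v, p, hp, hn⟩ := hall (Fintype.card V)
    have := hp.length_lt
    omega
  obtain ⟨i, hi⟩ := transversal_of_pos hG hV pos S (fun a b hab i hai hib => by
    by_cases ha : a ∈ S i
    · exact Or.inl ha
    by_cases hb : b ∈ S i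
    · exact Or.inr (Or.inl hb)
    refine Or.inr (Or.inr ?_)
    have h1 := hedge a b hab
    have h2 := hpos1 b
    obtain ⟨w, hw⟩ := exists_piece P (pos a) (pos b - pos a) (by omega)
    have h3 : pos a + (pos b - pos a) = pos b := by omega
    have hwS : ∀ z ∈ w.support, z ∈ S i := by
      intro z hz
      obtain ⟨l, h4, h5, h6⟩ := hw z hz
      rw [h6]
      exact hS i l (by omega) (by omega)
    have ha' : G.Adj a (P.getVert (pos a)) := by
      rcases hpos2 a with h | h
      · exact absurd (by rw [h]; exact hS i _ (by omega) (by omega)) ha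
      · exact h
    have hb' : G.Adj b (P.getVert (pos b)) := by
      rcases hpos2 b with h | h
      · exact absurd (by rw [h]; exact hS i _ (by omega) (by omega)) hb
      · exact h
    exact bypass_of_walk w hwS ha' (by rw [h3]; exact hb'.symm) ha hb hab.ne) hex
  exact ⟨S i, (Finset.card_image_le).trans (by simp), hi⟩

end Pool.Mimw
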