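import Mathlib

/-!
# Longest paths of a connected graph meet pairwise; bypasses
-/

set_option autoImplicit false

namespace Pool.Mimw

open SimpleGraph

variable {V : Type*}

/-- `p` is a longest path of `G` -/
def IsLongest (G : SimpleGraph V) {u v : V} (p : G.Walk u v) : Prop :=
  p.IsPath ∧ ∀ (a b : V) (q : G.Walk a b), q.IsPath → q.length ≤ p.length

/-- `x` and `y` are joined by a path with at least one inner vertex, all inner vertices being in `S` -/
def Bypass (G : SimpleGraph V) (S : Finset V) (x y : V) : Prop :=
  ∃ w : G.Walk x y, w.IsPath ∧ 2 ≤ w.length ∧ ∀ z ∈ w.support, z = x ∨ z = y ∨ z ∈ S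

theorem Bypass.symm {G : SimpleGraph V} {S : Finset V} {x y : V} (h : Bypass G S x y) :
    Bypass G S y x := by
  obtain ⟨w, h1, h2, h3⟩ := h
  refine ⟨w.reverse, h1.reverse, by rwa [Walk.length_reverse], fun z hz => ?_⟩
  rw [Walk.support_reverse, List.mem_reverse] at hz
  rcases h3 z hz with h | h | h
  · exact Or.inr (Or.inl h)
  · exact Or.inl h
  · exact Or.inr (Or.inr h)

/-- a walk with vertices inside and outside of `A` has an edge across -/
theorem exists_split {G : SimpleGraph V} (A : Set V) {u v : V} (p : G.Walk u v)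
    (h1 : ∃ x ∈ p.support, x ∈ A) (h2 : ∃ y ∈ p.support, y ∉ A) :
    ∃ (a b : V) (h : G.Adj a b) (q : G.Walk u a) (r : G.Walk b v),
      p = q.append (Walk.cons h r) ∧ ((a ∈ A ∧ b ∉ A) ∨ (a ∉ A ∧ b ∈ A)) := by
  induction p with
  | nil =>
    obtain ⟨x, hx, hxA⟩ := h1
    obtain ⟨y, hy, hyA⟩ := h2
    rw [Walk.support_nil, List.mem_singleton] at hx hy
    rw [hx] at hxA
    rw [hy] at hyA
    exact absurd hxA hyA
  | @cons u w v huw p ih =>
    by_cases hu : u ∈ A
    · by_cases hw : w ∈ A
      · obtain ⟨y, hy, hyA⟩ := h2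
        rw [Walk.support_cons, List.mem_cons] at hy
        rcases hy with rfl | hy
        · exact absurd hu hyA
        · obtain ⟨a, b, h, q, r, hqr, hab⟩ := ih ⟨w, p.start_mem_support, hw⟩ ⟨y, hy, hyA⟩
          exact ⟨a, b, h, Walk.cons huw q, r, by rw [hqr, Walk.cons_append], hab⟩
      · exact ⟨u, w, huw, Walk.nil, p, rfl, Or.inl ⟨hu, hw⟩⟩
    · by_cases hw : w ∈ A
      · exact ⟨u, w, huw, Walk.nil, p, rfl, Or.inr ⟨hu, hw⟩⟩
      · obtain ⟨x, hx, hxA⟩ := h1
        rw [Walk.support_cons, List.mem_cons] at hx
        rcases hx with rfl | hx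
        · exact absurd hxA hu
        · obtain ⟨a, b, h, q, r, hqr, hab⟩ := ih ⟨x, hx, hxA⟩ ⟨w, p.start_mem_support, hw⟩
          exact ⟨a, b, h, Walk.cons huw q, r, by rw [hqr, Walk.cons_append], hab⟩

/-- an edge of a longest path which avoids `S` has no bypass through `S` -/
theorem no_bypass {G : SimpleGraph V} {S : Finset V} {u v a b : V} (h : G.Adj a b)
    (q : G.Walk u a) (r : G.Walk b v) (hp : IsLongest G (q.append (Walk.cons h r)))
    (hS : ∀ x ∈ S, x ∉ (q.append (Walk.cons h r)).support) : ¬ Bypass G S a b := by
  rintro ⟨w, hw1, hw2, hw3⟩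
  -- the new path
  have hsup : ∀ x, x ∈ (q.append (Walk.cons h r)).support ↔ x ∈ q.support ∨ x ∈ r.support := by
    intro x
    rw [Walk.mem_support_append_iff, Walk.support_cons, List.mem_cons]
    constructor
    · rintro (h1 | h1 | h1)
      · exact Or.inl h1
      · exact Or.inl (by rw [h1]; exact q.end_mem_support)
      · exact Or.inr h1
    · rintro (h1 | h1)
      · exact Or.inl h1
      · exact Or.inr (Or.inr h1)
  have hnd := hp.1.support_nodup
  rw [Walk.support_append, Walk.support_cons, List.tail_cons] at hnd
  have hnew : (q.append (w.append r)).IsPath := by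
    rw [Walk.isPath_def, Walk.support_append, Walk.support_append, List.nodup_append']
    have hqnd : q.support.Nodup := (List.nodup_append'.1 hnd).1
    have hrnd : r.support.Nodup := (List.nodup_append'.1 hnd).2.1
    have hdis := (List.nodup_append'.1 hnd).2.2
    have hwt : ∀ x ∈ w.support.tail, x = b ∨ x ∈ S := by
      intro x hx
      have hnw := hw1.support_nodup
      rw [← Walk.cons_tail_support] at hnw
      rcases hw3 x (List.mem_of_mem_tail hx) with h1 | h1 | h1
      · exact absurd hx (by rw [h1]; exact (List.nodup_cons.1 hnw).1)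
      · exact Or.inl h1
      · exact Or.inr h1
    have hbr : b ∈ r.support := r.start_mem_support
    have hrt : ∀ x ∈ r.support.tail, x ≠ b ∧ x ∈ r.support := by
      intro x hx
      refine ⟨?_, List.mem_of_mem_tail hx⟩
      rintro rfl
      rw [← Walk.cons_tail_support] at hrnd
      exact (List.nodup_cons.1 hrnd).1 hx
    refine ⟨hqnd, ?_, ?_⟩
    · have htail : (w.support ++ r.support.tail).tail = w.support.tail ++ r.support.tail := by
        rw [← Walk.cons_tail_support]
        rfl
      rw [htail, List.nodup_append']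
      refine ⟨hw1.support_nodup.tail, hrnd.tail, ?_⟩
      intro x hx hx'
      rcases hwt x hx with h1 | h1
      · exact (hrt x hx').1 h1
      · exact hS x h1 ((hsup x).2 (Or.inr (hrt x hx').2))
    · intro x hx hx'
      have htail : (w.support ++ r.support.tail).tail = w.support.tail ++ r.support.tail := by
        rw [← Walk.cons_tail_support]
        rfl
      rw [htail, List.mem_append] at hx'
      rcases hx' with hx' | hx'
      · rcases hwt x hx' with h1 | h1
        · rw [h1] at hx
          exact hdis hx hbr
        · exact hS x h1 ((hsup x).2 (Or.inl hx))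
      · exact hdis hx (hrt x hx').2
  have hlen := hp.2 _ _ _ hnew
  rw [Walk.length_append, Walk.length_append, Walk.length_append, Walk.length_cons] at hlen
  omega

/-- two paths which have only the end of the first one in common -/
theorem append_isPath {G : SimpleGraph V} {a b c : V} {q : G.Walk a b} {r : G.Walk b c}
    (hq : q.IsPath) (hr : r.IsPath) (h : ∀ x ∈ q.support, x ∈ r.support → x = b) :
    (q.append r).IsPath := by
  rw [Walk.isPath_def, Walk.support_append, List.nodup_append']
  refine ⟨hq.support_nodup, hr.support_nodup.tail, ?_⟩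
  intro x hx hx'
  have h1 := h x hx (List.mem_of_mem_tail hx')
  have h2 := hr.support_nodup
  rw [← Walk.cons_tail_support] at h2
  rw [h1] at hx'
  exact (List.nodup_cons.1 h2).1 hx'

/-- half of a path -/
theorem exists_half {G : SimpleGraph V} {u v x : V} (p : G.Walk u v) (hp : p.IsPath)
    (hx : x ∈ p.support) : ∃ (s : V) (q : G.Walk s x), q.IsPath ∧ (∀ z ∈ q.support, z ∈ p.support) ∧
      p.length ≤ 2 * q.length := by
  classical
  have hlen : (p.takeUntil x hx).length + (p.dropUntil x hx).length = p.length := by
    rw [← Walk.length_append, Walk.take_spec]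
  by_cases h : (p.dropUntil x hx).length ≤ (p.takeUntil x hx).length
  · exact ⟨u, p.takeUntil x hx, hp.takeUntil hx, fun z hz => p.support_takeUntil_subset_support hx hz,
      by omega⟩
  · refine ⟨v, (p.dropUntil x hx).reverse, (hp.dropUntil hx).reverse, fun z hz => ?_, ?_⟩
    · rw [Walk.support_reverse, List.mem_reverse] at hz
      exact p.support_dropUntil_subset_support hx hz
    · rw [Walk.length_reverse]
      omega

/-- Two longest paths of a connected graph have a vertex in common. -/
theorem longest_meet {G : SimpleGraph V} (hG : G.Connected) {u v u' v' : V} {p : G.Walk u v}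
    {p' : G.Walk u' v'} (hp : IsLongest G p) (hp' : IsLongest G p') :
    ∃ x, x ∈ p.support ∧ x ∈ p'.support := by
  classical
  by_contra hcon
  push Not at hcon
  have hex : ∃ n : ℕ, ∃ (x y : V) (w : G.Walk x y), x ∈ p.support ∧ y ∈ p'.support ∧ w.IsPath ∧
      w.length = n := by
    obtain ⟨w⟩ := hG.preconnected u u'
    exact ⟨_, u, u', w.toPath.1, p.start_mem_support, p'.start_mem_support, w.toPath.2, rfl⟩
  obtain ⟨x, y, w, hx, hy, hw, hwl⟩ := Nat.find_spec hex
  have hmin : ∀ (x' y' : V) (w' : G.Walk x' y'), x' ∈ p.support → y' ∈ p'.support → w'.IsPath →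
      w.length ≤ w'.length := by
    intro x' y' w' h1 h2 h3
    rw [hwl]
    exact Nat.find_min' hex ⟨x', y', w', h1, h2, h3, rfl⟩
  have hwx : ∀ z ∈ w.support, z ∈ p.support → z = x := by
    intro z hz hzp
    have hlen : (w.takeUntil z hz).length + (w.dropUntil z hz).length = w.length := by
      rw [← Walk.length_append, Walk.take_spec]
    have h1 := hmin z y (w.dropUntil z hz) hzp hy (hw.dropUntil hz)
    have h2 : (w.takeUntil z hz).length = 0 := by omega
    exact (Walk.eq_of_length_eq_zero h2).symm
  have hwy : ∀ z ∈ w.support, z ∈ p'.support → z = y := by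
    intro z hz hzp
    have hlen : (w.takeUntil z hz).length + (w.dropUntil z hz).length = w.length := by
      rw [← Walk.length_append, Walk.take_spec]
    have h1 := hmin x z (w.takeUntil z hz) hx hzp (hw.takeUntil hz)
    have h2 : (w.dropUntil z hz).length = 0 := by omega
    exact Walk.eq_of_length_eq_zero h2
  have hw1 : 1 ≤ w.length := by
    by_contra h
    have h2 : w.length = 0 := by omega
    have h3 := Walk.eq_of_length_eq_zero h2
    exact hcon x hx (by rw [h3]; exact hy)
  obtain ⟨s, q, hq1, hq2, hq3⟩ := exists_half p hp.1 hx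
  obtain ⟨t, r, hr1, hr2, hr3⟩ := exists_half p' hp'.1 hy
  have h1 : (w.append r.reverse).IsPath := by
    refine append_isPath hw hr1.reverse fun z hz hz' => ?_
    rw [Walk.support_reverse, List.mem_reverse] at hz'
    exact hwy z hz (hr2 z hz')
  have h2 : (q.append (w.append r.reverse)).IsPath := by
    refine append_isPath hq1 h1 fun z hz hz' => ?_
    rw [Walk.mem_support_append_iff, Walk.support_reverse, List.mem_reverse] at hz'
    rcases hz' with hz' | hz'
    · exact hwx z hz' (hq2 z hz)
    · exact absurd (hr2 z hz') (hcon z (hq2 z hz))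
  have h3 := hp.2 _ _ _ h2
  have h4 := hp'.2 _ _ _ h2
  rw [Walk.length_append, Walk.length_append, Walk.length_reverse] at h3 h4
  omega

end Pool.Mimw
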