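import Pool.Agent.Mimw.Layers

/-!
# Longest path transversals and widths of decomposition trees
-/

set_option autoImplicit false

namespace Pool.Mimw

open SimpleGraph

variable {V : Type*}

/-- rooted binary trees with elements of `V` at their leaves -/
inductive BTree (V : Type*) : Type _
  | leaf : V → BTree V
  | node : BTree V → BTree V → BTree V

/-- the set of the elements at the leaves -/
def BTree.leaves : BTree V → Set V
  | .leaf v => {v}
  | .node a b => a.leaves ∪ b.leaves

/-- the leaf sets of all subtrees have the property `P` -/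
def BTree.All (P : Set V → Prop) : BTree V → Prop
  | .leaf v => P {v}
  | .node a b => P (a.leaves ∪ b.leaves) ∧ a.All P ∧ b.All P

theorem BTree.All.self {P : Set V → Prop} : ∀ {t : BTree V}, t.All P → P t.leaves
  | .leaf _, h => h
  | .node _ _, h => h.1

/-- every edge between `A` and its complement has an end in `S` or a bypass through `S` -/
def CutCover (G : SimpleGraph V) (S : Finset V) (A : Set V) : Prop :=
  ∀ a ∈ A, ∀ b, b ∉ A → G.Adj a b → a ∈ S ∨ b ∈ S ∨ Bypass G S a b

/-- a longest path which avoids `S` does not cross a cut which is covered by `S` -/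
theorem not_cross {G : SimpleGraph V} {S : Finset V} {A : Set V} (hA : CutCover G S A) {u v : V}
    {p : G.Walk u v} (hp : IsLongest G p) (hS : ∀ x ∈ S, x ∉ p.support)
    (h1 : ∃ x ∈ p.support, x ∈ A) (h2 : ∃ y ∈ p.support, y ∉ A) : False := by
  obtain ⟨a, b, h, q, r, hqr, hab⟩ := exists_split A p h1 h2
  have ha : a ∈ p.support := by
    rw [hqr, Walk.mem_support_append_iff]
    exact Or.inl q.end_mem_support
  have hb : b ∈ p.support := by
    rw [hqr, Walk.mem_support_append_iff, Walk.support_cons]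
    exact Or.inr (List.mem_cons_of_mem _ r.start_mem_support)
  have hno : ¬ Bypass G S a b := no_bypass h q r (by rw [← hqr]; exact hp) (by rw [← hqr]; exact hS)
  rcases hab with ⟨haA, hbA⟩ | ⟨haA, hbA⟩
  · rcases hA a haA b hbA h with h3 | h3 | h3
    · exact hS a h3 ha
    · exact hS b h3 hb
    · exact hno h3
  · rcases hA b hbA a haA h.symm with h3 | h3 | h3
    · exact hS b h3 hb
    · exact hS a h3 ha
    · exact hno h3.symm

/-- going down from a subtree which contains a longest path -/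
theorem exists_transversal_of_tree {G : SimpleGraph V} (hG : G.Connected) {m : ℕ} (hm : 0 < m) :
    ∀ t : BTree V, t.All (fun A => ∃ S : Finset V, S.card ≤ m ∧ CutCover G S A) →
      (∃ (u v : V) (p : G.Walk u v), IsLongest G p ∧ ∀ x ∈ p.support, x ∈ t.leaves) →
      ∃ S : Finset V, S.card ≤ 2 * m ∧
        ∀ (u v : V) (p : G.Walk u v), IsLongest G p → ∃ x ∈ S, x ∈ p.support := by
  classical
  intro t
  induction t with
  | leaf w =>
    rintro _ ⟨u, v, p, hp, hpt⟩
    refine ⟨{w}, by rw [Finset.card_singleton]; omega, fun u' v' p' hp' => ?_⟩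
    obtain ⟨x, hx, hx'⟩ := longest_meet hG hp hp'
    have h1 : x = w := hpt x hx
    exact ⟨w, Finset.mem_singleton_self w, by rw [← h1]; exact hx'⟩
  | node a b iha ihb =>
    rintro ⟨_, ha, hb⟩ ⟨u, v, p, hp, hpt⟩
    by_cases h1 : ∃ (u v : V) (p : G.Walk u v), IsLongest G p ∧ ∀ x ∈ p.support, x ∈ a.leaves
    · exact iha ha h1
    by_cases h2 : ∃ (u v : V) (p : G.Walk u v), IsLongest G p ∧ ∀ x ∈ p.support, x ∈ b.leaves
    · exact ihb hb h2
    obtain ⟨Sa, hSa, hSa'⟩ := BTree.All.self ha
    obtain ⟨Sb, hSb, hSb'⟩ := BTree.All.self hb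
    refine ⟨Sa ∪ Sb, (Finset.card_union_le _ _).trans (by omega), fun u' v' p' hp' => ?_⟩
    by_contra hcon
    push Not at hcon
    obtain ⟨x, hx, hx'⟩ := longest_meet hG hp hp'
    rcases hpt x hx with h3 | h3
    · refine not_cross hSa' hp' (fun y hy => hcon y (Finset.mem_union_left _ hy)) ⟨x, hx', h3⟩ ?_
      by_contra h4
      push Not at h4
      exact h1 ⟨u', v', p', hp', h4⟩
    · refine not_cross hSb' hp' (fun y hy => hcon y (Finset.mem_union_right _ hy)) ⟨x, hx', h3⟩ ?_
      by_contra h4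
      push Not at h4
      exact h2 ⟨u', v', p', hp', h4⟩

/-- there is a longest path -/
theorem exists_longest [Fintype V] (G : SimpleGraph V) (hG : G.Connected) :
    ∃ (u v : V) (p : G.Walk u v), IsLongest G p := by
  classical
  obtain ⟨w⟩ := hG.nonempty
  by_contra hcon
  push Not at hcon
  have hall : ∀ n : ℕ, ∃ (u v : V) (p : G.Walk u v), p.IsPath ∧ n ≤ p.length := by
    intro n
    induction n with
    | zero => exact ⟨w, w, Walk.nil, Walk.IsPath.nil, Nat.zero_le _⟩
    | succ n ih =>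
      obtain ⟨u, v, p, hp, hn⟩ := ih
      have h1 : ¬ ∀ (a b : V) (q : G.Walk a b), q.IsPath → q.length ≤ p.length := fun h =>
        hcon u v p ⟨hp, h⟩
      push Not at h1
      obtain ⟨a, b, q, hq, hlt⟩ := h1
      exact ⟨a, b, q, hq, by omega⟩
  obtain ⟨u, v, p, hp, hn⟩ := hall (Fintype.card V)
  have := hp.length_lt
  omega

/-- **General theorem.** -/
theorem transversal_of_cuts [Fintype V] (G : SimpleGraph V) (hG : G.Connected) (m : ℕ) (hm : 0 < m)
    (t : BTree V) (ht : ∀ v, v ∈ t.leaves)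
    (hc : t.All (fun A => ∃ S : Finset V, S.card ≤ m ∧ CutCover G S A)) :
    ∃ S : Finset V, S.card ≤ 2 * m ∧
      ∀ (u v : V) (p : G.Walk u v), IsLongest G p → ∃ x ∈ S, x ∈ p.support := by
  obtain ⟨u, v, p, hp⟩ := exists_longest G hG
  exact exists_transversal_of_tree hG hm t hc ⟨u, v, p, hp, fun x _ => ht x⟩

/-- there are no `k + 1` edges `a i b i` with `a i ∈ U`, `b i ∈ Z` without other edges `a i b j` -/
def NoMatching (G : SimpleGraph V) (k : ℕ) (U Z : Set V) : Prop :=
  ∀ a b : Fin (k + 1) → V, (∀ i, a i ∈ U) → (∀ i, b i ∈ Z) → ¬ ∀ i j, (G.Adj (a i) (b j) ↔ i = j)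

/-- a few vertices of `U` have all neighbours of `U` in `Z` -/
theorem exists_cover [Fintype V] {G : SimpleGraph V} {k : ℕ} {U Z : Set V}
    (h : NoMatching G k U Z) : ∃ T : Finset V, T.card ≤ k ∧ (∀ u ∈ T, u ∈ U) ∧
      ∀ z ∈ Z, (∃ u ∈ U, G.Adj u z) → ∃ u ∈ T, G.Adj u z := by
  classical
  -- a smallest set
  have hex : ∃ n : ℕ, ∃ T : Finset V, T.card = n ∧ (∀ u ∈ T, u ∈ U) ∧
      ∀ z ∈ Z, (∃ u ∈ U, G.Adj u z) → ∃ u ∈ T, G.Adj u z := by
    refine ⟨_, Finset.univ.filter (fun u => u ∈ U), rfl, fun u hu => (Finset.mem_filter.1 hu).2,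
      fun z _ hu => ?_⟩
    obtain ⟨u, hu, huz⟩ := hu
    exact ⟨u, Finset.mem_filter.2 ⟨Finset.mem_univ _, hu⟩, huz⟩
  obtain ⟨T, hTc, hTU, hTZ⟩ := Nat.find_spec hex
  refine ⟨T, ?_, hTU, hTZ⟩
  by_contra hlt
  have hlt' : k + 1 ≤ T.card := by omega
  -- private neighbours
  have hpriv : ∀ u : T, ∃ z ∈ Z, G.Adj u z ∧ ∀ u' ∈ T, u' ≠ (u : V) → ¬ G.Adj u' z := by
    intro u
    by_contra hcon
    push Not at hcon
    have h1 : (T.erase (u : V)).card < Nat.find hex := by
      rw [← hTc]
      exact Finset.card_erase_lt_of_mem u.2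
    refine Nat.find_min hex h1 ⟨T.erase (u : V), rfl, fun u' hu' => hTU u' (Finset.mem_of_mem_erase hu'),
      fun z hz hu' => ?_⟩
    obtain ⟨u1, hu1, hu1z⟩ := hTZ z hz hu'
    by_cases he : u1 = (u : V)
    · obtain ⟨u2, hu2, hne, hu2z⟩ := hcon z hz (by rw [← he]; exact hu1z)
      exact ⟨u2, Finset.mem_erase.2 ⟨hne, hu2⟩, hu2z⟩
    · exact ⟨u1, Finset.mem_erase.2 ⟨he, hu1⟩, hu1z⟩
  choose z hzZ hz1 hz2 using hpriv
  let e : Fin (k + 1) → T := fun i => T.equivFin.symm (Fin.castLE hlt' i)
  have he : Function.Injective e := T.equivFin.symm.injective.comp (Fin.castLE_injective hlt')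
  refine h (fun i => (e i : V)) (fun i => z (e i)) (fun i => hTU _ (e i).2) (fun i => hzZ _) ?_
  intro i j
  constructor
  · intro hadj
    by_contra hij
    exact hz2 (e j) (e i) (e i).2 (fun h3 => hij (he (Subtype.ext h3))) hadj
  · rintro rfl
    exact hz1 (e i)

/-- a cut without an induced matching of `k + 1` edges is covered by `4 k - 2` vertices: the ends of
its edges are dominated by `k` stars with `2 k` vertices together -/
theorem cutCover_of_mim [Fintype V] {G : SimpleGraph V} {k : ℕ} (hk : 0 < k) {A : Set V}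
    (h : NoMatching G k A Aᶜ) : ∃ S : Finset V, S.card + 2 ≤ 4 * k ∧ CutCover G S A := by
  classical
  have h' : NoMatching G k Aᶜ A := by
    intro a b ha hb hab
    refine h b a hb ha fun i j => ?_
    rw [SimpleGraph.adj_comm, hab j i]
    exact eq_comm
  obtain ⟨T0, hT0c, hT0A, hT0⟩ := exists_cover h
  obtain ⟨T', hT'c, hT'A, hT'⟩ := exists_cover h'
  -- the useful part of `T0`
  obtain ⟨T, hTdef⟩ : ∃ T : Finset V, T = T0.filter (fun t => ∃ b, b ∉ A ∧ G.Adj t b) := ⟨_, rfl⟩
  have hTc : T.card ≤ k := by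
    rw [hTdef]
    exact (Finset.card_filter_le _ _).trans hT0c
  have hTA : ∀ t ∈ T, t ∈ A := by
    intro t ht
    rw [hTdef, Finset.mem_filter] at ht
    exact hT0A t ht.1
  have hT : ∀ b, b ∉ A → (∃ a ∈ A, G.Adj a b) → ∃ t ∈ T, G.Adj t b := by
    intro b hb hab
    obtain ⟨t, ht, htb⟩ := hT0 b hb hab
    refine ⟨t, ?_, htb⟩
    rw [hTdef, Finset.mem_filter]
    exact ⟨ht, b, hb, htb⟩
  have hTT : ∀ t ∈ T, ∃ t' ∈ T', G.Adj t' t := by
    intro t ht
    have ht' := ht
    rw [hTdef, Finset.mem_filter] at ht'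
    obtain ⟨_, b, hb, htb⟩ := ht'
    exact hT' t (hTA t ht) ⟨b, hb, htb.symm⟩
  by_cases hne : T'.Nonempty
  · obtain ⟨t0, ht0⟩ := hne
    have hf : ∀ t : V, ∃ t' ∈ T', t ∈ T → G.Adj t' t := by
      intro t
      by_cases ht : t ∈ T
      · obtain ⟨t', h1, h2⟩ := hTT t ht
        exact ⟨t', h1, fun _ => h2⟩
      · exact ⟨t0, ht0, fun h1 => absurd h1 ht⟩
    choose f hf1 hf2 using hf
    let st : V → Finset V := fun t' => insert t' (T.filter (fun t => f t = t'))
    have hinj : Set.InjOn st (T' : Set V) := by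
      intro x hx y hy hxy
      have h1 : x ∈ st y := by
        rw [← hxy]
        exact Finset.mem_insert_self _ _
      rw [Finset.mem_insert, Finset.mem_filter] at h1
      rcases h1 with h1 | h1
      · exact h1
      · exact absurd (hTA x h1.1) (hT'A x hx)
    have hsum : ∑ B ∈ T'.image st, B.card ≤ 2 * k := by
      rw [Finset.sum_image hinj]
      have h1 : ∀ t' ∈ T', (st t').card ≤ (T.filter (fun t => f t = t')).card + 1 := fun t' _ =>
        Finset.card_insert_le _ _
      refine (Finset.sum_le_sum h1).trans ?_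
      rw [Finset.sum_add_distrib, Finset.sum_const, smul_eq_mul, mul_one,
        ← Finset.card_eq_sum_card_fiberwise (fun t _ => hf1 t)]
      omega
    obtain ⟨S, hS, hS'⟩ := exists_cover_of_dom G
      {v | (v ∈ A ∧ ∃ b, b ∉ A ∧ G.Adj v b) ∨ (v ∉ A ∧ ∃ a ∈ A, G.Adj a v)} (2 * k) k (T'.image st)
      ⟨st t0, Finset.mem_image_of_mem _ ht0⟩ (Finset.card_image_le.trans hT'c) hsum
      (by
        intro B hB
        obtain ⟨t', ht', rfl⟩ := Finset.mem_image.1 hB
        have hall : ∀ x ∈ st t', ∃ w : G.Walk x t', ∀ z ∈ w.support, z ∈ st t' := by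
          intro x hx
          have hx' := hx
          rw [Finset.mem_insert, Finset.mem_filter] at hx
          rcases hx with hx | hx
          · rw [hx]
            refine ⟨Walk.nil, fun z hz => ?_⟩
            rw [Walk.support_nil, List.mem_singleton] at hz
            rw [hz]
            exact Finset.mem_insert_self _ _
          · have h1 : G.Adj t' x := by
              rw [← hx.2]
              exact hf2 x hx.1
            refine ⟨Walk.cons h1.symm Walk.nil, fun z hz => ?_⟩
            rw [Walk.support_cons, Walk.support_nil, List.mem_cons, List.mem_singleton] at hz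
            rcases hz with hz | hz
            · rw [hz]
              exact hx'
            · rw [hz]
              exact Finset.mem_insert_self _ _
        intro x hx y hy
        obtain ⟨w, hw⟩ := hall x hx
        obtain ⟨w', hw'⟩ := hall y hy
        refine ⟨w.append w'.reverse, fun z hz => ?_⟩
        rw [Walk.mem_support_append_iff, Walk.support_reverse, List.mem_reverse] at hz
        rcases hz with hz | hz
        · exact hw z hz
        · exact hw' z hz)
      (by
        rintro v (⟨hv, b, hb, hvb⟩ | ⟨hv, a, ha, hav⟩)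
        · obtain ⟨t', ht', ht'v⟩ := hT' v hv ⟨b, hb, hvb.symm⟩
          exact ⟨st t', Finset.mem_image_of_mem _ ht', Or.inr ⟨t', Finset.mem_insert_self _ _,
            ht'v.symm⟩⟩
        · obtain ⟨t, ht, htv⟩ := hT v hv ⟨a, ha, hav⟩
          refine ⟨st (f t), Finset.mem_image_of_mem _ (hf1 t), Or.inr ⟨t, ?_, htv.symm⟩⟩
          exact Finset.mem_insert_of_mem (Finset.mem_filter.2 ⟨ht, rfl⟩))
    refine ⟨S, by omega, fun a ha b hb hab => ?_⟩
    exact hS' a (Or.inl ⟨ha, b, hb, hab⟩) b (Or.inr ⟨hb, a, ha, hab⟩) hab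
  · refine ⟨∅, by rw [Finset.card_empty]; omega, fun a ha b hb hab => ?_⟩
    obtain ⟨t', ht', _⟩ := hT' a ha ⟨b, hb, hab.symm⟩
    exact absurd ⟨t', ht'⟩ hne

end Pool.Mimw
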